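import Pool.Agent.Helper34.AFE.Trace

/-!
# AF-embeddable and quasidiagonal C*-algebras (as in the frozen statement S05215)
-/

set_option autoImplicit false

open scoped ComplexOrder

namespace Pool.Agent.Helper34.AFE

open Pool.Agent.Helper39.Uct

/-- `A` embeds into a separable AF algebra (the conclusion of `S05215`). -/
def AFEmb (A : Type) [NonUnitalCStarAlgebra A] : Prop :=
  ∃ (B : Type) (_ : CStarAlgebra B), TopologicalSpace.SeparableSpace B ∧
    (∀ (F : Finset B) (ε : ℝ), 0 < ε →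
      ∃ D : StarSubalgebra ℂ B, FiniteDimensional ℂ D ∧ ∀ x ∈ F, ∃ d ∈ D, ‖x - d‖ < ε) ∧
    ∃ ι : A →⋆ₙₐ[ℂ] B, Function.Injective ι

/-- operators of the Hermitian space of dimension `k` -/
abbrev Mk (k : ℕ) : Type := EuclideanSpace ℂ (Fin k) →L[ℂ] EuclideanSpace ℂ (Fin k)

/-- `φ` is completely positive. -/
def IsCP {A D : Type} [NonUnitalCStarAlgebra A] [NonUnitalCStarAlgebra D] (φ : A →ₗ[ℂ] D) : Prop :=
  ∀ (n : ℕ) (y : CStarMatrix (Fin n) (Fin n) A),
    ∃ z : CStarMatrix (Fin n) (Fin n) D, (star y * y).map ⇑φ = star z * z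

/-- `φ` is multiplicative and isometric on `F` up to `ε`. -/
def Approx {A D : Type} [NonUnitalCStarAlgebra A] [NonUnitalCStarAlgebra D] (φ : A →ₗ[ℂ] D)
    (F : Finset A) (ε : ℝ) : Prop :=
  ∀ a ∈ F, ∀ b ∈ F, ‖φ (a * b) - φ a * φ b‖ < ε ∧ ‖a‖ - ε < ‖φ a‖

/-- `A` is quasidiagonal (the third hypothesis of `S05215`). -/
def QD (A : Type) [NonUnitalCStarAlgebra A] : Prop :=
  ∀ (F : Finset A) (ε : ℝ), 0 < ε →
    ∃ (k : ℕ) (φ : A →ₗ[ℂ] Mk k), (∀ a, ‖φ a‖ ≤ ‖a‖) ∧ IsCP φ ∧ Approx φ F ε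

/-- The embedding theorem (Tikuisis-White-Winter, Schafhauser, Gabe) holds in the class `𝒞`:
separable algebras of the class with a faithful tracial functional embed into a separable AF
algebra. -/
def EmbIn (𝒞 : Cls) : Prop :=
  ∀ (A : Type) [NonUnitalCStarAlgebra A] [TopologicalSpace.SeparableSpace A],
    𝒞 A → FaithfulTr A → AFEmb A

end Pool.Agent.Helper34.AFE
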