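import Pool.Agent.Helper39.Uct.Final

/-!
# The fixed point property for virtually solvable groups

`FP G`: every action of `G` on a compact convex set by continuous linear maps has a fixed point.
-/

set_option autoImplicit false

namespace Pool.Agent.Helper34.AFE

open Filter Topology

/-- The fixed point property (for compact convex subsets of the spaces of functions). -/
def FP (G : Type) [Group G] : Prop :=
  ∀ (X : Type) (K : Set (X → ℂ)), K.Nonempty → IsCompact K → Convex ℝ K →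
    ∀ T : G → ((X → ℂ) →L[ℝ] (X → ℂ)), (∀ g, ∀ x ∈ K, T g x ∈ K) → (∀ x ∈ K, T 1 x = x) →
      (∀ g h, ∀ x ∈ K, T (g * h) x = T g (T h x)) → ∃ x ∈ K, ∀ g, T g x = x

variable {X : Type}

theorem coord_bound {K : Set (X → ℂ)} (hK : IsCompact K) (a : X) : ∃ C : ℝ, ∀ x ∈ K, ‖x a‖ ≤ C := by
  have h : IsCompact ((fun x : X → ℂ ↦ x a) '' K) := hK.image (continuous_apply a)
  obtain ⟨C, hC⟩ := h.isBounded.exists_norm_le
  exact ⟨C, fun x hx ↦ hC _ ⟨x, hx, rfl⟩⟩

/-- Markov-Kakutani for one map. -/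
theorem mk_one {K : Set (X → ℂ)} (hne : K.Nonempty) (hK : IsCompact K) (hc : Convex ℝ K)
    (T : (X → ℂ) →L[ℝ] (X → ℂ)) (hT : ∀ x ∈ K, T x ∈ K) : ∃ x ∈ K, T x = x := by
  obtain ⟨x₀, hx₀⟩ := hne
  have hit : ∀ n : ℕ, (T^[n]) x₀ ∈ K := by
    intro n
    induction n with
    | zero => exact hx₀
    | succ n ih => rw [Function.iterate_succ_apply']; exact hT _ ih
  set y : ℕ → (X → ℂ) := fun n ↦ ∑ k ∈ Finset.range (n + 1), ((1 : ℝ) / (n + 1)) • (T^[k]) x₀ with hy
  have hyK : ∀ n, y n ∈ K := by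
    intro n
    refine hc.sum_mem (fun i _ ↦ by positivity) ?_ (fun i _ ↦ hit i)
    rw [Finset.sum_const, Finset.card_range, nsmul_eq_mul]
    push_cast
    field_simp
  have hdiff : ∀ n, T (y n) - y n = ((1 : ℝ) / (n + 1)) • ((T^[n + 1]) x₀ - x₀) := by
    intro n
    simp only [hy]
    rw [map_sum, ← Finset.sum_sub_distrib]
    have : ∀ k ∈ Finset.range (n + 1), T (((1 : ℝ) / (n + 1)) • (T^[k]) x₀) -
        ((1 : ℝ) / (n + 1)) • (T^[k]) x₀ =
        ((1 : ℝ) / (n + 1)) • ((T^[k + 1]) x₀ - (T^[k]) x₀) := by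
      intro k _
      rw [map_smul, Function.iterate_succ_apply', smul_sub]
    rw [Finset.sum_congr rfl this, ← Finset.smul_sum, Finset.sum_range_sub (fun k ↦ (T^[k]) x₀)]
    rfl
  obtain ⟨x, hxK, hx⟩ := hK.ultrafilter_le_nhds ((hyperfilter ℕ : Ultrafilter ℕ).map y)
    (by
      rw [Ultrafilter.coe_map, le_principal_iff]
      exact Filter.mem_map.2 (Filter.Eventually.of_forall hyK))
  have hx' : Tendsto y (hyperfilter ℕ : Filter ℕ) (𝓝 x) := hx
  refine ⟨x, hxK, ?_⟩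
  have h1 : Tendsto (fun n ↦ T (y n) - y n) (hyperfilter ℕ : Filter ℕ) (𝓝 (T x - x)) :=
    ((T.continuous.tendsto x).comp hx').sub hx'
  have h2 : Tendsto (fun n ↦ T (y n) - y n) (hyperfilter ℕ : Filter ℕ) (𝓝 0) := by
    rw [tendsto_pi_nhds]
    intro a
    obtain ⟨C, hC⟩ := coord_bound hK a
    have hle : (hyperfilter ℕ : Filter ℕ) ≤ atTop := by
      rw [← Nat.cofinite_eq_atTop]; exact hyperfilter_le_cofinite
    refine Tendsto.mono_left ?_ hle
    refine squeeze_zero_norm (a := fun n : ℕ ↦ (1 / ((n : ℝ) + 1)) * (2 * C)) ?_ ?_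
    · intro n
      rw [hdiff]
      simp only [Pi.smul_apply, Pi.sub_apply]
      rw [norm_smul, Real.norm_of_nonneg (by positivity)]
      refine mul_le_mul_of_nonneg_left ?_ (by positivity)
      calc ‖(T^[n + 1]) x₀ a - x₀ a‖ ≤ ‖(T^[n + 1]) x₀ a‖ + ‖x₀ a‖ := norm_sub_le _ _
        _ ≤ C + C := add_le_add (hC _ (hit _)) (hC _ hx₀)
        _ = 2 * C := by ring
    · have := tendsto_one_div_add_atTop_nhds_zero_nat (𝕜 := ℝ)
      simpa using this.mul_const (2 * C)
  exact sub_eq_zero.1 (tendsto_nhds_unique h1 h2)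

theorem fix_closed {G : Type} (T : G → ((X → ℂ) →L[ℝ] (X → ℂ))) (g : G) :
    IsClosed {x : X → ℂ | T g x = x} :=
  isClosed_eq (T g).continuous continuous_id

/-- It is enough to find fixed points of finite sets. -/
theorem fp_finite {G : Type} {K : Set (X → ℂ)} (hK : IsCompact K)
    (T : G → ((X → ℂ) →L[ℝ] (X → ℂ)))
    (h : ∀ u : Finset G, ∃ x ∈ K, ∀ g ∈ u, T g x = x) : ∃ x ∈ K, ∀ g, T g x = x := by
  have := hK.inter_iInter_nonempty (fun g ↦ {x : X → ℂ | T g x = x}) (fix_closed T) (by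
    intro u
    obtain ⟨x, hx, hx'⟩ := h u
    exact ⟨x, hx, Set.mem_iInter₂.2 hx'⟩)
  obtain ⟨x, hx, hx'⟩ := this
  exact ⟨x, hx, fun g ↦ Set.mem_iInter.1 hx' g⟩

theorem fp_comm (G : Type) [Group G] (hG : ∀ a b : G, a * b = b * a) : FP G := by
  classical
  intro X K hne hK hc T hT h1 hm
  refine fp_finite hK T fun u ↦ ?_
  induction u using Finset.induction_on with
  | empty => obtain ⟨x, hx⟩ := hne; exact ⟨x, hx, by simp⟩
  | insert g u _ ih =>
    set K' : Set (X → ℂ) := K ∩ ⋂ h ∈ u, {x | T h x = x} with hK'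
    have hmem : ∀ x, x ∈ K' ↔ x ∈ K ∧ ∀ h ∈ u, T h x = x := by
      intro x; simp [hK']
    have hcl : IsClosed (⋂ h ∈ u, {x : X → ℂ | T h x = x}) :=
      isClosed_biInter fun h _ ↦ fix_closed T h
    obtain ⟨x, hx, hx'⟩ := mk_one (K := K') (by
        obtain ⟨x, hx, hx'⟩ := ih
        exact ⟨x, (hmem x).2 ⟨hx, hx'⟩⟩) (hK.inter_right hcl) (by
        intro x hx y hy a b ha hb hab
        rw [hmem] at hx hy ⊢
        refine ⟨hc hx.1 hy.1 ha hb hab, fun h hh ↦ ?_⟩
        rw [map_add, map_smul, map_smul, hx.2 h hh, hy.2 h hh]) (T g) (by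
        intro x hx
        rw [hmem] at hx ⊢
        refine ⟨hT g x hx.1, fun h hh ↦ ?_⟩
        rw [← hm h g x hx.1, hG h g, hm g h x hx.1, hx.2 h hh])
    rw [hmem] at hx
    refine ⟨x, hx.1, fun h hh ↦ ?_⟩
    rcases Finset.mem_insert.1 hh with rfl | hh
    · exact hx'
    · exact hx.2 h hh

theorem fp_ext (G : Type) [Group G] (N : Subgroup G) [N.Normal] (hN : FP N) (hQ : FP (G ⧸ N)) :
    FP G := by
  intro X K hne hK hc T hT h1 hm
  set K' : Set (X → ℂ) := K ∩ ⋂ n : N, {x | T n x = x} with hK'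
  have hmem : ∀ x, x ∈ K' ↔ x ∈ K ∧ ∀ n ∈ N, T n x = x := by
    intro x; simp [hK']
  have hcl : IsClosed (⋂ n : N, {x : X → ℂ | T n x = x}) :=
    isClosed_iInter fun h ↦ fix_closed T h.1
  have hne' : K'.Nonempty := by
    obtain ⟨x, hx, hx'⟩ := hN X K hne hK hc (fun n ↦ T n) (fun n ↦ hT n) h1
      (fun a b x hx ↦ hm a b x hx)
    exact ⟨x, (hmem x).2 ⟨hx, fun n hn ↦ hx' ⟨n, hn⟩⟩⟩
  have hmul : ∀ (q : G ⧸ N) (g : G), (q : G ⧸ N) = g → ∃ n ∈ N, q.out = g * n := by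
    intro q g hqg
    refine ⟨g⁻¹ * q.out, ?_, by group⟩
    rw [← QuotientGroup.eq, ← hqg]
    exact (QuotientGroup.out_eq' q).symm
  have hfix : ∀ (q : G ⧸ N) (g : G), (q : G ⧸ N) = g → ∀ x ∈ K', T q.out x = T g x := by
    intro q g hqg x hx
    obtain ⟨n, hn, e⟩ := hmul q g hqg
    rw [hmem] at hx
    rw [e, hm g n x hx.1, hx.2 n hn]
  have hinv : ∀ g : G, ∀ x ∈ K', T g x ∈ K' := by
    intro g x hx
    rw [hmem] at hx ⊢
    refine ⟨hT g x hx.1, fun n hn ↦ ?_⟩
    have e : n * g = g * (g⁻¹ * n * g) := by group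
    rw [← hm n g x hx.1, e, hm g _ x hx.1, hx.2]
    have := (inferInstance : N.Normal).conj_mem n hn g⁻¹
    simpa using this
  obtain ⟨x, hx, hx'⟩ := hQ X K' hne' (hK.inter_right hcl) (by
      intro x hx y hy a b ha hb hab
      rw [hmem] at hx hy ⊢
      refine ⟨hc hx.1 hy.1 ha hb hab, fun h hh ↦ ?_⟩
      rw [map_add, map_smul, map_smul, hx.2 h hh, hy.2 h hh]) (fun q ↦ T q.out)
    (fun q x hx ↦ hinv _ x hx)
    (fun x hx ↦ by
      change T (1 : G ⧸ N).out x = x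
      rw [hfix 1 1 rfl x hx, h1 x ((hmem x).1 hx).1])
    (fun q r x hx ↦ by
      change T (q * r).out x = T q.out (T r.out x)
      rw [hfix (q * r) (q.out * r.out) (by simp) x hx]
      exact hm _ _ x ((hmem x).1 hx).1)
  refine ⟨x, ((hmem x).1 hx).1, fun g ↦ ?_⟩
  rw [← hfix (g : G ⧸ N) g rfl x hx]
  exact hx' _

theorem fp_finiteIndex (G : Type) [Group G] (S : Subgroup G) [S.FiniteIndex] (hS : FP S) : FP G := by
  classical
  intro X K hne hK hc T hT h1 hm
  obtain ⟨x, hx, hx'⟩ := hS X K hne hK hc (fun n ↦ T n) (fun n ↦ hT n) h1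
    (fun a b x hx ↦ hm a b x hx)
  haveI : Fintype (G ⧸ S) := Fintype.ofFinite _
  have hfix : ∀ (q : G ⧸ S) (g : G), (q : G ⧸ S) = g → T q.out x = T g x := by
    intro q g hqg
    have hn : g⁻¹ * q.out ∈ S := by
      rw [← QuotientGroup.eq, ← hqg]
      exact (QuotientGroup.out_eq' q).symm
    have e : q.out = g * (g⁻¹ * q.out) := by group
    rw [e, hm g _ x hx]
    have := hx' ⟨_, hn⟩
    exact congrArg (T g) this
  have hcard : (0 : ℝ) < Fintype.card (G ⧸ S) := by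
    exact_mod_cast Fintype.card_pos
  set y : X → ℂ := ∑ c : G ⧸ S, ((1 : ℝ) / Fintype.card (G ⧸ S)) • T c.out x with hy
  refine ⟨y, ?_, fun g ↦ ?_⟩
  · refine hc.sum_mem (fun i _ ↦ by positivity) ?_ (fun i _ ↦ hT _ x hx)
    rw [Finset.sum_const, Finset.card_univ, nsmul_eq_mul]
    field_simp
  · rw [hy, map_sum]
    rw [← Equiv.sum_comp (MulAction.toPerm g : Equiv.Perm (G ⧸ S))
      (fun c ↦ ((1 : ℝ) / Fintype.card (G ⧸ S)) • T c.out x)]
    refine Finset.sum_congr rfl fun c _ ↦ ?_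
    rw [map_smul, ← hm g c.out x hx]
    congr 1
    refine (hfix _ _ ?_).symm
    rw [MulAction.toPerm_apply]
    conv_lhs => rw [← QuotientGroup.out_eq' c]
    rfl

theorem fp_local (G : Type) [Group G] (h : ∀ H : Subgroup G, H.FG → FP H) : FP G := by
  intro X K hne hK hc T hT h1 hm
  refine fp_finite hK T fun u ↦ ?_
  obtain ⟨x, hx, hx'⟩ := h (Subgroup.closure (u : Set G)) ⟨u, rfl⟩ X K hne hK hc (fun n ↦ T n)
    (fun n ↦ hT n) h1 (fun a b x hx ↦ hm a b x hx)
  exact ⟨x, hx, fun g hg ↦ hx' ⟨g, Subgroup.subset_closure hg⟩⟩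

theorem fp_derived (n : ℕ) : ∀ (G : Type) [Group G], derivedSeries G n = ⊥ → FP G := by
  induction n with
  | zero =>
    intro G _ h
    refine fp_comm G fun a b ↦ ?_
    rw [derivedSeries_zero] at h
    have ha : a ∈ (⊤ : Subgroup G) := trivial
    have hb : b ∈ (⊤ : Subgroup G) := trivial
    rw [h, Subgroup.mem_bot] at ha hb
    rw [ha, hb]
  | succ n ih =>
    intro G _ h
    refine fp_ext G (derivedSeries G n) (fp_comm _ ?_) (ih _ ?_)
    · intro a b
      rw [derivedSeries_succ] at h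
      have h2 := Subgroup.commutator_mem_commutator a.2 b.2
      rw [h, Subgroup.mem_bot] at h2
      apply Subtype.ext
      have := commutatorElement_eq_one_iff_mul_comm.1 h2
      exact this
    · rw [← map_derivedSeries_eq (QuotientGroup.mk'_surjective (derivedSeries G n)) n]
      rw [Subgroup.map_eq_bot_iff, QuotientGroup.ker_mk']

theorem fp_solvable (G : Type) [Group G] (h : Group.IsSolvable G) : FP G := by
  obtain ⟨n, hn⟩ := h
  exact fp_derived n G hn

theorem fp_vpc (G : Type) [Group G] (h : Pool.Agent.Helper39.Uct.VPC G) : FP G := by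
  obtain ⟨_, S, hS, hs⟩ := h
  haveI := hS
  exact fp_finiteIndex G S (fp_solvable S hs)

/-- Groups with an abelian normal subgroup and a locally virtually polycyclic quotient. -/
theorem fp_abVPC (G : Type) [Group G] (N : Subgroup G) [N.Normal]
    (hN : ∀ a ∈ N, ∀ b ∈ N, a * b = b * a)
    (hQ : ∀ H : Subgroup (G ⧸ N), H.FG → Pool.Agent.Helper39.Uct.VPC H) : FP G :=
  fp_ext G N (fp_comm N fun a b ↦ Subtype.ext (hN a a.2 b b.2))
    (fp_local _ fun H hH ↦ fp_vpc H (hQ H hH))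

end Pool.Agent.Helper34.AFE
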