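import Pool.Agent.Helper34.AFE.Trace
import Pool.Agent.Helper34.AFE.FP

/-!
# A C*-algebra generated by a unitary representation of an amenable group has a tracial state
-/

set_option autoImplicit false

open scoped ComplexOrder
open Filter Topology

namespace Pool.Agent.Helper34.AFE

variable {S : Type} [CStarAlgebra S]

theorem norm_one_selfadj {f : S →ₗ[ℂ] ℂ} (hb : ∀ a, ‖f a‖ ≤ ‖a‖) (h1 : f 1 = 1) {h : S}
    (hh : IsSelfAdjoint h) : (f h).im = 0 := by
  have key : ∀ s : ℝ, ((f h).im + s) ^ 2 ≤ ‖h‖ ^ 2 + s ^ 2 := by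
    intro s
    set z : ℂ := (s : ℂ) * Complex.I with hz
    have e1 : f (h + z • (1 : S)) = f h + z := by
      rw [map_add, map_smul, h1, smul_eq_mul, mul_one]
    have h2 := hb (h + z • (1 : S))
    rw [e1] at h2
    have h3 : ‖h + z • (1 : S)‖ ^ 2 ≤ ‖h‖ ^ 2 + s ^ 2 := by
      have e2 : star (h + z • (1 : S)) * (h + z • (1 : S)) = h * h + ((s : ℂ) ^ 2) • (1 : S) := by
        rw [star_add, star_smul, star_one, hh.star_eq, add_mul, mul_add, mul_add, mul_smul_comm,
          smul_mul_assoc, mul_one, one_mul, smul_mul_assoc, mul_smul_comm, smul_smul, mul_one]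
        have e3 : star z = -z := by
          rw [hz, Complex.star_def, map_mul, Complex.conj_ofReal, Complex.conj_I]; ring
        have e4 : -z * z = (s : ℂ) ^ 2 := by
          rw [hz]
          linear_combination -(s : ℂ) ^ 2 * Complex.I_sq
        rw [e3, e4, neg_smul]
        abel
      rw [sq, ← CStarRing.norm_star_mul_self, e2]
      refine (norm_add_le _ _).trans (add_le_add ?_ ?_)
      · exact (norm_mul_le _ _).trans (by rw [sq])
      · rw [norm_smul, norm_pow, Complex.norm_real, Real.norm_eq_abs, sq_abs]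
        have : ‖(1 : S)‖ ≤ 1 := by
          rcases subsingleton_or_nontrivial S with hs | hs
          · rw [Subsingleton.elim (1 : S) 0, norm_zero]; exact zero_le_one
          · rw [CStarRing.norm_one]
        nlinarith [sq_nonneg s]
    have h4 : ‖f h + z‖ ^ 2 ≤ ‖h‖ ^ 2 + s ^ 2 := by
      refine le_trans ?_ h3
      exact pow_le_pow_left₀ (norm_nonneg _) h2 2
    have h5 : ((f h).im + s) ^ 2 ≤ ‖f h + z‖ ^ 2 := by
      have h6 := Complex.abs_im_le_norm (f h + z)
      have e5 : (f h + z).im = (f h).im + s := by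
        simp [hz]
      rw [e5] at h6
      calc ((f h).im + s) ^ 2 = |(f h).im + s| ^ 2 := (sq_abs _).symm
        _ ≤ _ := pow_le_pow_left₀ (abs_nonneg _) h6 2
    exact h5.trans h4
  by_contra hne
  have h7 := key ((‖h‖ ^ 2 + 1) / (2 * (f h).im))
  have h8 : ((f h).im + (‖h‖ ^ 2 + 1) / (2 * (f h).im)) ^ 2 =
      (f h).im ^ 2 + (‖h‖ ^ 2 + 1) + ((‖h‖ ^ 2 + 1) / (2 * (f h).im)) ^ 2 := by
    field_simp
    ring
  rw [h8] at h7
  nlinarith [sq_nonneg (f h).im]

/-- A functional with `‖f‖ ≤ 1 = f 1` is positive. -/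
theorem pos_of_norm_one {f : S →ₗ[ℂ] ℂ} (hb : ∀ a, ‖f a‖ ≤ ‖a‖) (h1 : f 1 = 1) (a : S) :
    0 ≤ f (star a * a) := by
  set h := star a * a with hh
  have hsa : IsSelfAdjoint h := IsSelfAdjoint.star_mul_self a
  have him := norm_one_selfadj hb h1 hsa
  have hsp : SpectrumRestricts h ContinuousMap.realToNNReal := by
    rw [SpectrumRestricts.nnreal_iff]
    exact spectrum_star_mul_self_nonneg
  have h2 := (SpectrumRestricts.nnreal_iff_nnnorm hsa (le_refl ‖h‖₊)).1 hsp
  have h3 : ‖algebraMap ℝ S ‖h‖ - h‖ ≤ ‖h‖ := h2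
  have e : f (algebraMap ℝ S ‖h‖ - h) = ‖h‖ - f h := by
    rw [map_sub, Algebra.algebraMap_eq_smul_one]
    congr 1
    have : ((‖h‖ : ℝ) • (1 : S)) = ((‖h‖ : ℂ)) • (1 : S) := by
      rw [← Complex.coe_smul]
    rw [this, map_smul, h1, smul_eq_mul, mul_one]
  have h4 := (hb (algebraMap ℝ S ‖h‖ - h)).trans h3
  rw [e] at h4
  have h5 := (Complex.re_le_norm ((‖h‖ : ℂ) - f h)).trans h4
  rw [Complex.sub_re, Complex.ofReal_re] at h5
  rw [Complex.le_def]
  exact ⟨by simpa using by linarith, by simp [him]⟩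

/-- The state space as a subset of the space of functions. -/
def StateK (S : Type) [CStarAlgebra S] : Set (S → ℂ) :=
  {f | (∀ a b, f (a + b) = f a + f b) ∧ (∀ (c : ℂ) a, f (c • a) = c * f a) ∧
    (∀ a, ‖f a‖ ≤ ‖a‖) ∧ f 1 = 1}

theorem StateK_compact : IsCompact (StateK S) := by
  have h1 : IsCompact (Set.univ.pi fun a : S ↦ Metric.closedBall (0 : ℂ) ‖a‖) :=
    isCompact_univ_pi fun a ↦ isCompact_closedBall _ _
  refine h1.of_isClosed_subset ?_ ?_
  · have e : StateK S = (⋂ (a : S) (b : S), {f : S → ℂ | f (a + b) = f a + f b}) ∩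
        ((⋂ (c : ℂ) (a : S), {f : S → ℂ | f (c • a) = c * f a}) ∩
        ((⋂ a : S, {f : S → ℂ | ‖f a‖ ≤ ‖a‖}) ∩ {f : S → ℂ | f 1 = 1})) := by
      ext f
      simp [StateK]
    rw [e]
    refine IsClosed.inter ?_ (IsClosed.inter ?_ (IsClosed.inter ?_ ?_))
    · exact isClosed_iInter fun a ↦ isClosed_iInter fun b ↦
        isClosed_eq (continuous_apply (a + b)) (by fun_prop)
    · exact isClosed_iInter fun a ↦ isClosed_iInter fun b ↦
        isClosed_eq (continuous_apply _) (continuous_const.mul (continuous_apply _))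
    · exact isClosed_iInter fun a ↦ isClosed_le (continuous_norm.comp (continuous_apply _))
        continuous_const
    · exact isClosed_eq (continuous_apply _) continuous_const
  · intro f hf a _
    rw [mem_closedBall_zero_iff]
    exact hf.2.2.1 a

theorem StateK_convex : Convex ℝ (StateK S) := by
  rintro f ⟨f1, f2, f3, f4⟩ g ⟨g1, g2, g3, g4⟩ a b ha hb hab
  refine ⟨fun x y ↦ ?_, fun c x ↦ ?_, fun x ↦ ?_, ?_⟩
  · simp only [Pi.add_apply, Pi.smul_apply, f1, g1, smul_add]
    abel
  · simp only [Pi.add_apply, Pi.smul_apply, f2, g2, Complex.real_smul]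
    ring
  · simp only [Pi.add_apply, Pi.smul_apply]
    calc ‖a • f x + b • g x‖ ≤ ‖a • f x‖ + ‖b • g x‖ := norm_add_le _ _
      _ = a * ‖f x‖ + b * ‖g x‖ := by
        rw [norm_smul, norm_smul, Real.norm_of_nonneg ha, Real.norm_of_nonneg hb]
      _ ≤ a * ‖x‖ + b * ‖x‖ := add_le_add (mul_le_mul_of_nonneg_left (f3 x) ha)
          (mul_le_mul_of_nonneg_left (g3 x) hb)
      _ = ‖x‖ := by rw [← add_mul, hab, one_mul]
  · simp only [Pi.add_apply, Pi.smul_apply, f4, g4]
    rw [← add_smul, hab, one_smul]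

theorem StateK_nonempty [Nontrivial S] : (StateK S).Nonempty := by
  obtain ⟨g, hg, hg1⟩ := exists_dual_vector'' ℂ (1 : S)
  refine ⟨fun a ↦ g a, fun a b ↦ map_add g a b, fun c a ↦ ?_, fun a ↦ ?_, ?_⟩
  · exact map_smul g c a
  · exact (g.le_of_opNorm_le hg a).trans (by rw [one_mul])
  · change g 1 = 1
    rw [hg1, CStarRing.norm_one]; simp

/-- A unital C*-algebra generated by a unitary representation of a group with the fixed point
property has a tracial state. -/
theorem exists_trace [Nontrivial S] (G : Type) [Group G] (hG : FP G) (u : G →* unitary S)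
    (hu : (Submodule.span ℂ (Set.range fun g ↦ (u g : S))).topologicalClosure = ⊤) :
    ∃ τ : S →ₗ[ℂ] ℂ, IsTr τ ∧ τ 1 = 1 := by
  set T : G → ((S → ℂ) →L[ℝ] (S → ℂ)) := fun g ↦
    ContinuousLinearMap.pi fun a ↦ ContinuousLinearMap.proj (star (u g : S) * a * (u g : S)) with hT
  have hTa : ∀ g f a, T g f a = f (star (u g : S) * a * (u g : S)) := fun _ _ _ ↦ rfl
  have hus : ∀ g, star (u g : S) * (u g : S) = 1 := fun g ↦ (Unitary.mem_iff.1 (u g).2).1
  have hus' : ∀ g, (u g : S) * star (u g : S) = 1 := fun g ↦ (Unitary.mem_iff.1 (u g).2).2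
  have hun : ∀ g, ‖(u g : S)‖ ≤ 1 := fun g ↦ CStarRing.norm_of_mem_unitary (u g).2 |>.le
  have hun' : ∀ g, ‖star (u g : S)‖ ≤ 1 := fun g ↦ by rw [norm_star]; exact hun g
  obtain ⟨f, ⟨f1, f2, f3, f4⟩, hf⟩ := hG S (StateK S) StateK_nonempty StateK_compact
    StateK_convex T (by
      rintro g f ⟨f1, f2, f3, f4⟩
      refine ⟨fun a b ↦ ?_, fun c a ↦ ?_, fun a ↦ ?_, ?_⟩
      · rw [hTa, hTa, hTa, ← f1, mul_add, add_mul]
      · rw [hTa, hTa, ← f2, mul_smul_comm, smul_mul_assoc]
      · rw [hTa]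
        refine (f3 _).trans ?_
        calc ‖star (u g : S) * a * (u g : S)‖ ≤ ‖star (u g : S) * a‖ * ‖(u g : S)‖ :=
              norm_mul_le _ _
          _ ≤ (‖star (u g : S)‖ * ‖a‖) * ‖(u g : S)‖ :=
              mul_le_mul_of_nonneg_right (norm_mul_le _ _) (norm_nonneg _)
          _ ≤ (1 * ‖a‖) * 1 := by
              gcongr
              · exact hun' g
              · exact hun g
          _ = ‖a‖ := by ring
      · rw [hTa, mul_one, hus, f4])
    (by
      intro f _
      funext a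
      rw [hTa, map_one]
      simp)
    (by
      intro g h f _
      funext a
      rw [hTa, hTa, hTa, map_mul]
      congr 1
      simp only [Submonoid.coe_mul, star_mul, mul_assoc])
  let τ : S →ₗ[ℂ] ℂ :=
    { toFun := f
      map_add' := f1
      map_smul' := fun c a ↦ by rw [f2, RingHom.id_apply, smul_eq_mul] }
  have hτ : ∀ a, τ a = f a := fun _ ↦ rfl
  have hb : ∀ a, ‖τ a‖ ≤ ‖a‖ := f3
  have h1 : τ 1 = 1 := f4
  have hcont : Continuous τ := by
    have : ∀ a, ‖τ a‖ ≤ 1 * ‖a‖ := fun a ↦ by rw [one_mul]; exact hb a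
    exact (LinearMap.mkContinuous τ 1 this).continuous
  have hug : ∀ g, ∀ a : S, τ (a * (u g : S)) = τ ((u g : S) * a) := by
    intro g a
    have h2 := congrFun (hf g) ((u g : S) * a)
    rw [hTa] at h2
    rw [hτ, hτ, ← h2, ← mul_assoc, hus, one_mul]
  refine ⟨τ, ⟨hcont, pos_of_norm_one hb h1, fun a b ↦ ?_⟩, h1⟩
  have hb' : b ∈ (Submodule.span ℂ (Set.range fun g ↦ (u g : S))).topologicalClosure := by
    rw [hu]; trivial
  let V : Submodule ℂ S :=
    { carrier := {b | τ (a * b) = τ (b * a)}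
      add_mem' := by
        intro x y hx hy
        have hx' : τ (a * x) = τ (x * a) := hx
        have hy' : τ (a * y) = τ (y * a) := hy
        change τ (a * (x + y)) = τ ((x + y) * a)
        rw [mul_add, add_mul, map_add, map_add, hx', hy']
      zero_mem' := by simp
      smul_mem' := by
        intro c x hx
        have hx' : τ (a * x) = τ (x * a) := hx
        change τ (a * (c • x)) = τ ((c • x) * a)
        rw [mul_smul_comm, smul_mul_assoc, map_smul, map_smul, hx'] }
  have hV : (Submodule.span ℂ (Set.range fun g ↦ (u g : S))).topologicalClosure ≤ V := by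
    refine Submodule.topologicalClosure_minimal _ ?_ ?_
    · rw [Submodule.span_le]
      rintro _ ⟨g, rfl⟩
      exact hug g a
    · exact isClosed_eq (hcont.comp (continuous_const.mul continuous_id))
        (hcont.comp (continuous_id.mul continuous_const))
  exact hV hb'

end Pool.Agent.Helper34.AFE
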