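import Pool.Agent.Helper34.AFE.QDT
import Pool.Agent.Helper34.AFE.State
import Pool.Agent.Helper34.AFE.FP
import Pool.Agent.Helper34.CP.Main

/-!
# The grading given by a unitary representation, and the embedding theorems
-/

set_option autoImplicit false

open scoped ComplexOrder
open Pool.Agent.Helper39.Uct Pool.Agent.Helper34.CP Pool.Agent.Helper10.Uct

namespace Pool.Agent.Helper34.AFE

/-- the unitaries of a coset -/
def cosetSet {B : Type} [CStarAlgebra B] {G : Type} [Group G] (N : Subgroup G) (u : G →* unitary B)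
    (q : G ⧸ N) : Set B := {x | ∃ g : G, (g : G ⧸ N) = q ∧ x = (u g : B)}

/-- The weak grading of a C*-algebra generated by a unitary representation of `G` over `G ⧸ N`. -/
noncomputable def groupFib {B : Type} [CStarAlgebra B] {G : Type} [Group G] (N : Subgroup G) [N.Normal]
    (u : G →* unitary B)
    (hu : (Submodule.span ℂ (Set.range fun g ↦ (u g : B))).topologicalClosure = ⊤) :
    Fib (G ⧸ N) B where
  fib q := (Submodule.span ℂ (cosetSet N u q)).topologicalClosure
  closed q := Submodule.isClosed_topologicalClosure _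
  mul_mem p q x y hx hy := by
    refine closure_mul_mem (cosetSet N u p) (cosetSet N u q) _
      (Submodule.isClosed_topologicalClosure _) ?_ x hx y hy
    rintro _ ⟨g, rfl, rfl⟩ _ ⟨h, rfl, rfl⟩
    refine Submodule.le_topologicalClosure _ (Submodule.subset_span ⟨g * h, ?_, ?_⟩)
    · rw [QuotientGroup.mk_mul]
    · rw [map_mul]; rfl
  star_mem q x hx := by
    refine closure_star_mem (cosetSet N u q) (cosetSet N u q⁻¹) ?_ x hx
    rintro _ ⟨g, rfl, rfl⟩
    refine ⟨g⁻¹, ?_, ?_⟩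
    · rw [QuotientGroup.mk_inv]
    · rw [map_inv]; rfl
  dense := by
    rw [eq_top_iff, ← hu]
    refine Submodule.topologicalClosure_mono (Submodule.span_le.2 ?_)
    rintro _ ⟨g, rfl⟩
    refine (le_iSup (fun q : G ⧸ N ↦
      (Submodule.span ℂ (cosetSet N u q)).topologicalClosure) (g : G ⧸ N)) ?_
    exact Submodule.le_topologicalClosure _ (Submodule.subset_span ⟨g, rfl, rfl⟩)

theorem groupFib_comm {B : Type} [CStarAlgebra B] {G : Type} [Group G] (N : Subgroup G) [N.Normal]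
    (hN : ∀ a ∈ N, ∀ b ∈ N, a * b = b * a) (u : G →* unitary B)
    (hu : (Submodule.span ℂ (Set.range fun g ↦ (u g : B))).topologicalClosure = ⊤) :
    (groupFib N u hu).Comm := by
  intro x hx y hy
  have h1 : ∀ y ∈ cosetSet N u 1, ∀ x ∈ (Submodule.span ℂ (cosetSet N u 1)).topologicalClosure,
      x * y - y * x = 0 := by
    intro y hy x hx
    have := closure_map_mem (cosetSet N u 1) (⊥ : Submodule ℂ B) (by simp)
      (LinearMap.mulRight ℂ y - LinearMap.mulLeft ℂ y)
      (by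
        show Continuous fun x ↦ x * y - y * x
        fun_prop) (by
        rintro _ ⟨g, hg, rfl⟩
        obtain ⟨h, hh, rfl⟩ := hy
        have hg' : g ∈ N := (QuotientGroup.eq_one_iff g).1 hg
        have hh' : h ∈ N := (QuotientGroup.eq_one_iff h).1 hh
        rw [Submodule.mem_bot]
        show (u g : B) * (u h : B) - (u h : B) * (u g : B) = 0
        have e : u g * u h = u h * u g := by rw [← map_mul, ← map_mul, hN g hg' h hh']
        have e' := congrArg (fun z : unitary B ↦ (z : B)) e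
        exact sub_eq_zero.2 e') x hx
    rw [Submodule.mem_bot] at this
    exact this
  have := closure_map_mem (cosetSet N u 1) (⊥ : Submodule ℂ B) (by simp)
      (LinearMap.mulLeft ℂ x - LinearMap.mulRight ℂ x)
      (by
        show Continuous fun y ↦ x * y - y * x
        fun_prop) (fun z hz ↦ by
        rw [Submodule.mem_bot]
        exact h1 z hz x hx) y hy
  rw [Submodule.mem_bot] at this
  exact sub_eq_zero.1 this

/-- `b` is seen by a tracial functional or by a *-homomorphism into a simple unital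
quasidiagonal C*-algebra. -/
def Seen {B : Type} [NonUnitalCStarAlgebra B] (b : B) : Prop :=
  (∃ τ : B →ₗ[ℂ] ℂ, IsTr τ ∧ τ (star b * b) ≠ 0) ∨
    ∃ (S : Type) (_ : CStarAlgebra S) (π : B →⋆ₙₐ[ℂ] S), Simp S ∧ QD S ∧ π b ≠ 0

/-- `b` survives in a simple unital quotient. -/
def SeenSimple {B : Type} [NonUnitalCStarAlgebra B] (b : B) : Prop :=
  ∃ (S : Type) (_ : CStarAlgebra S) (π : B →⋆ₙₐ[ℂ] S), Simp S ∧ Function.Surjective π ∧ π b ≠ 0

theorem seen_trace {B : Type} [NonUnitalCStarAlgebra B] {b : B} (h : Seen b) :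
    ∃ τ : B →ₗ[ℂ] ℂ, IsTr τ ∧ τ (star b * b) ≠ 0 := by
  rcases h with h | ⟨S, _, π, hS, hq, hb⟩
  · exact h
  · have : Nontrivial S := ⟨⟨π b, 0, hb⟩⟩
    obtain ⟨τ, hτ, h1⟩ := exists_trace_of_qd hq
    refine ⟨τ ∘ₗ (π : B →ₗ[ℂ] S), hτ.comp π, ?_⟩
    have h2 := faithful_of_simp hS hτ (a₀ := 1) (by rwa [star_one, one_mul]) hb
    have e : (τ ∘ₗ (π : B →ₗ[ℂ] S)) (star b * b) = τ (star (π b) * π b) := by
      show τ (π (star b * b)) = _
      rw [map_mul, map_star]
    rwa [e]

theorem ft_of_seen {B : Type} [NonUnitalCStarAlgebra B]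
    [TopologicalSpace.SeparableSpace B] (h : ∀ b : B, b ≠ 0 → Seen b) : FaithfulTr B :=
  faithful_of_separating fun b hb ↦ seen_trace (h b hb)

/-- `B` has a faithful tracial functional, lies in the class `𝒞`, and embeds into a separable AF
algebra if the embedding theorem holds in the class `𝒞`. -/
def Emb (𝒞 : Cls) (B : Type) [NonUnitalCStarAlgebra B] : Prop :=
  FaithfulTr B ∧ 𝒞 B ∧ (EmbIn 𝒞 → AFEmb B)

theorem emb_of {𝒞 : Cls} {B : Type} [NonUnitalCStarAlgebra B]
    [TopologicalSpace.SeparableSpace B] (hB : 𝒞 B) (h : FaithfulTr B) : Emb 𝒞 B :=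
  ⟨h, hB, fun hemb ↦ hemb B hB h⟩

/-- the image of a generating unitary representation in a quotient -/
theorem gen_quot {B S : Type} [CStarAlgebra B] [CStarAlgebra S] {G : Type} [Group G]
    (u : G →* unitary B)
    (hu : (Submodule.span ℂ (Set.range fun g ↦ (u g : B))).topologicalClosure = ⊤)
    (π : B →⋆ₙₐ[ℂ] S) (hπ : Function.Surjective π) :
    ∃ v : G →* unitary S,
      (Submodule.span ℂ (Set.range fun g ↦ (v g : S))).topologicalClosure = ⊤ := by
  have h1 : π 1 = 1 := by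
    obtain ⟨e, he⟩ := hπ 1
    calc π 1 = π 1 * 1 := (mul_one _).symm
      _ = π 1 * π e := by rw [he]
      _ = π (1 * e) := (map_mul π _ _).symm
      _ = 1 := by rw [one_mul, he]
  have hcont : Continuous π := AddMonoidHomClass.continuous_of_bound π 1 fun a ↦ by
      rw [one_mul]; exact NonUnitalStarAlgHom.norm_apply_le π a
  let v : G →* unitary S :=
    { toFun := fun g ↦ ⟨π (u g), by
        rw [Unitary.mem_iff, ← map_star, ← map_mul, ← map_mul,
          (Unitary.mem_iff.1 (u g).2).1, (Unitary.mem_iff.1 (u g).2).2, h1]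
        exact ⟨rfl, rfl⟩⟩
      map_one' := by
        apply Subtype.ext
        show π ((u 1 : unitary B) : B) = 1
        rw [map_one]
        exact h1
      map_mul' := fun g h ↦ by
        apply Subtype.ext
        show π ((u (g * h) : unitary B) : B) = π (u g) * π (u h)
        rw [map_mul]
        exact map_mul π _ _ }
  refine ⟨v, ?_⟩
  rw [eq_top_iff]
  intro s _
  obtain ⟨b, rfl⟩ := hπ s
  have hb : b ∈ (Submodule.span ℂ (Set.range fun g ↦ (u g : B))).topologicalClosure := by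
    rw [hu]; trivial
  exact closure_map_mem _ _ (Submodule.isClosed_topologicalClosure _) (π : B →ₗ[ℂ] S) hcont (by
    rintro _ ⟨g, rfl⟩
    exact Submodule.le_topologicalClosure _ (Submodule.subset_span ⟨g, rfl⟩)) b hb

theorem emb_graded (𝒞 : Cls) (h𝒞 : UctPerm 𝒞)
    (B : Type) [NonUnitalCStarAlgebra B] [TopologicalSpace.SeparableSpace B]
    (Q : Type) [Group Q] (hQ : ∀ H : Subgroup Q, H.FG → VPC H)
    (G : Fib Q B) (A : Type) [NonUnitalCStarAlgebra A]
    (hA : IsTypeI A) (ι : A →⋆ₙₐ[ℂ] B) (hι : Set.range ι = (G.fib 1 : Set B))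
    (h : ∀ b : B, b ≠ 0 → Seen b) : Emb 𝒞 B :=
  emb_of (tlv_any 𝒞 h𝒞.toUctLike B Q hQ G A hA ι hι) (ft_of_seen h)

theorem emb_cp (𝒞 : Cls) (h𝒞 : RSClass 𝒞)
    (B : Type) [NonUnitalCStarAlgebra B] [TopologicalSpace.SeparableSpace B]
    (E : ℕ → Submodule ℂ B) (hE : Sys E) (A : Type) [NonUnitalCStarAlgebra A]
    (hA : IsTypeI A) (ι : A →⋆ₙₐ[ℂ] B) (hι : Set.range ι = (E 0 : Set B))
    (h : ∀ b : B, b ≠ 0 → Seen b) : Emb 𝒞 B :=
  emb_of (t_CP 𝒞 h𝒞 B E hE ⟨A, inferInstance, hA, ι, hι⟩) (ft_of_seen h)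

theorem emb_group (𝒞 : Cls) (h𝒞 : UctPerm 𝒞)
    (B : Type) [CStarAlgebra B] [TopologicalSpace.SeparableSpace B]
    (G : Type) [Group G] (N : Subgroup G) [N.Normal]
    (hN : ∀ a ∈ N, ∀ b ∈ N, a * b = b * a)
    (hQ : ∀ H : Subgroup (G ⧸ N), H.FG → VPC H)
    (u : G →* unitary B)
    (hu : (Submodule.span ℂ (Set.range fun g ↦ (u g : B))).topologicalClosure = ⊤)
    (h : ∀ b : B, b ≠ 0 → SeenSimple b) : Emb 𝒞 B := by
  refine emb_of ?_ (faithful_of_separating fun b hb ↦ ?_)
  · obtain ⟨G', A, _, hA, ι, hι⟩ := Helper27.Uct2.ci (G ⧸ N) B (groupFib N u hu)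
      (groupFib_comm N hN u hu)
    exact tlv_any 𝒞 h𝒞.toUctLike B (G ⧸ N) hQ G' A hA ι hι
  · obtain ⟨S, _, π, hS, hπ, hπb⟩ := h b hb
    have : Nontrivial S := ⟨⟨π b, 0, hπb⟩⟩
    obtain ⟨v, hv⟩ := gen_quot u hu π hπ
    obtain ⟨τ, hτ, h1⟩ := exists_trace G (fp_abVPC G N hN hQ) v hv
    refine ⟨τ ∘ₗ (π : B →ₗ[ℂ] S), hτ.comp π, ?_⟩
    have h2 := faithful_of_simp hS hτ (a₀ := 1) (by rw [star_one, one_mul, h1]; exact one_ne_zero)
      hπb
    have e : (τ ∘ₗ (π : B →ₗ[ℂ] S)) (star b * b) = τ (star (π b) * π b) := by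
      show τ (π (star b * b)) = _
      rw [map_mul, map_star]
    rwa [e]

end Pool.Agent.Helper34.AFE
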