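import Pool.Agent.Helper34.AFE.Defs

/-!
# A unital quasidiagonal C*-algebra has a tracial state
-/

set_option autoImplicit false

open scoped ComplexOrder
open Filter Topology

namespace Pool.Agent.Helper34.AFE

section matrices

variable {k : ℕ}

/-- trace -/
noncomputable def trM (k : ℕ) : Mk k →ₗ[ℂ] ℂ where
  toFun := fun x ↦ LinearMap.trace ℂ (EuclideanSpace ℂ (Fin k))
    (x : EuclideanSpace ℂ (Fin k) →ₗ[ℂ] EuclideanSpace ℂ (Fin k))
  map_add' := fun x y ↦ by simp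
  map_smul' := fun c x ↦ by simp

theorem trM_mul_comm (x y : Mk k) : trM k (x * y) = trM k (y * x) := by
  exact LinearMap.trace_mul_comm ℂ
    (x : EuclideanSpace ℂ (Fin k) →ₗ[ℂ] EuclideanSpace ℂ (Fin k))
    (y : EuclideanSpace ℂ (Fin k) →ₗ[ℂ] EuclideanSpace ℂ (Fin k))

/-- the standard basis -/
noncomputable def bas (k : ℕ) : OrthonormalBasis (Fin k) ℂ (EuclideanSpace ℂ (Fin k)) :=
  EuclideanSpace.basisFun (Fin k) ℂ

theorem trM_eq (x : Mk k) : trM k x = ∑ i, inner ℂ (bas k i) (x (bas k i)) :=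
  LinearMap.trace_eq_sum_inner _ (bas k)

/-- sum of the squares of the lengths -/
noncomputable def hs (x : Mk k) : ℝ := ∑ i, ‖x (bas k i)‖ ^ 2

theorem hs_nonneg (x : Mk k) : 0 ≤ hs x := Finset.sum_nonneg fun _ _ ↦ by positivity

theorem trM_star_mul (x z : Mk k) :
    trM k (star x * z) = ∑ i, inner ℂ (x (bas k i)) (z (bas k i)) := by
  rw [trM_eq]
  refine Finset.sum_congr rfl fun i _ ↦ ?_
  rw [ContinuousLinearMap.star_eq_adjoint, mul_apply_eq_comp,
    ContinuousLinearMap.adjoint_inner_right]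

theorem trM_star_mul_self (x : Mk k) : trM k (star x * x) = (hs x : ℂ) := by
  rw [trM_star_mul, hs]
  push_cast
  refine Finset.sum_congr rfl fun i _ ↦ ?_
  rw [inner_self_eq_norm_sq_to_K]
  rfl

theorem norm_trM_le (p z : Mk k) (hp : star p = p) (hpp : p * p = p) :
    ‖trM k (z * p)‖ ≤ ‖z‖ * hs p := by
  have e : trM k (z * p) = trM k (star p * (z * p)) := by
    rw [hp, trM_mul_comm p (z * p), mul_assoc, hpp]
  rw [e, trM_star_mul, hs, Finset.mul_sum]
  refine (norm_sum_le _ _).trans (Finset.sum_le_sum fun i _ ↦ ?_)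
  refine (norm_inner_le_norm _ _).trans ?_
  rw [mul_apply_eq_comp]
  calc ‖p (bas k i)‖ * ‖z (p (bas k i))‖ ≤ ‖p (bas k i)‖ * (‖z‖ * ‖p (bas k i)‖) :=
        mul_le_mul_of_nonneg_left (z.le_opNorm _) (norm_nonneg _)
    _ = ‖z‖ * ‖p (bas k i)‖ ^ 2 := by ring

theorem eq_zero_of_hs (x : Mk k) (h : hs x = 0) : x = 0 := by
  have h1 : ∀ i, x (bas k i) = 0 := by
    intro i
    have h2 := (Finset.sum_eq_zero_iff_of_nonneg (fun i _ ↦ by positivity)).1 h i
      (Finset.mem_univ i)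
    exact norm_eq_zero.1 (pow_eq_zero_iff two_ne_zero |>.1 h2)
  ext1 v
  rw [← (bas k).sum_repr v, map_sum]
  simp [h1]

/-- the spectral projection of an approximate projection -/
theorem exists_proj (h : Mk k) (hh : IsSelfAdjoint h) {ε : ℝ} (hε : ε ≤ 1 / 8)
    (h2 : ‖h * h - h‖ ≤ ε) :
    ∃ p : Mk k, star p = p ∧ p * p = p ∧ ‖h - p‖ ≤ 2 * ε := by
  have hε0 : 0 ≤ ε := (norm_nonneg _).trans h2
  set χ : ℝ → ℝ := fun t ↦ max 0 (min 1 (2 * t - 1 / 2)) with hχ
  have hχc : Continuous χ := by fun_prop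
  have e1 : cfc (fun t : ℝ ↦ t * t - t) h = h * h - h := by
    rw [cfc_sub (fun t : ℝ ↦ t * t) (fun t ↦ t) h, cfc_mul (fun t : ℝ ↦ t) (fun t ↦ t) h,
      cfc_id' ℝ h]
  have hsp : ∀ t ∈ spectrum ℝ h, |t * t - t| ≤ ε := by
    intro t ht
    have h3 := norm_apply_le_norm_cfc (fun t : ℝ ↦ t * t - t) h ht
    rw [e1] at h3
    exact h3.trans h2
  have hcase : ∀ t ∈ spectrum ℝ h, (χ t = 0 ∧ |t| ≤ 2 * ε) ∨ (χ t = 1 ∧ |t - 1| ≤ 2 * ε) := by
    intro t ht
    have h4 := hsp t ht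
    have h5 : |t| * |t - 1| ≤ ε := by
      rw [← abs_mul]
      have : t * (t - 1) = t * t - t := by ring
      rw [this]; exact h4
    rcases le_or_gt t (1 / 2) with h6 | h6
    · left
      have h7 : 1 / 2 ≤ |t - 1| := by
        rw [abs_of_nonpos (by linarith)]; linarith
      have h8 : |t| ≤ 2 * ε := by nlinarith [abs_nonneg t]
      refine ⟨?_, h8⟩
      have h9 : t ≤ 1 / 4 := (le_abs_self t).trans (h8.trans (by linarith))
      simp only [hχ]
      rw [max_eq_left]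
      exact (min_le_right _ _).trans (by linarith)
    · right
      have h7 : 1 / 2 ≤ |t| := by
        rw [abs_of_pos (by linarith)]; linarith
      have h8 : |t - 1| ≤ 2 * ε := by nlinarith [abs_nonneg (t - 1)]
      refine ⟨?_, h8⟩
      have h9 : 3 / 4 ≤ t := by
        have := neg_abs_le (t - 1)
        linarith
      simp only [hχ]
      rw [min_eq_left (by linarith)]
      exact max_eq_right (by norm_num)
  refine ⟨cfc χ h, ?_, ?_, ?_⟩
  · exact (cfc_predicate χ h : IsSelfAdjoint (cfc χ h))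
  · rw [← cfc_mul χ χ h]
    refine cfc_congr fun t ht ↦ ?_
    rcases hcase t ht with ⟨h1, _⟩ | ⟨h1, _⟩ <;> simp [h1]
  · have e2 : h - cfc χ h = cfc (fun t : ℝ ↦ t - χ t) h := by
      rw [cfc_sub (fun t : ℝ ↦ t) χ h, cfc_id' ℝ h]
    rw [e2]
    refine norm_cfc_le (by linarith) fun t ht ↦ ?_
    rcases hcase t ht with ⟨h1, h3⟩ | ⟨h1, h3⟩
    · rw [h1, sub_zero]; exact h3
    · rw [h1]; exact h3

theorem cp_one {S : Type} [NonUnitalCStarAlgebra S] (φ : S →ₗ[ℂ] Mk k)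
    (hφ : ∀ (n : ℕ) (y : CStarMatrix (Fin n) (Fin n) S),
        ∃ z : CStarMatrix (Fin n) (Fin n) (Mk k), (star y * y).map ⇑φ = star z * z) (a : S) :
    ∃ z : Mk k, φ (star a * a) = star z * z := by
  obtain ⟨z, hz⟩ := hφ 1 (CStarMatrix.ofMatrix fun _ _ ↦ a)
  refine ⟨z 0 0, ?_⟩
  have h := congrFun (congrFun hz 0) 0
  have e1 : ((star (CStarMatrix.ofMatrix fun _ _ ↦ a : CStarMatrix (Fin 1) (Fin 1) S) *
      (CStarMatrix.ofMatrix fun _ _ ↦ a)).map ⇑φ) 0 0 = φ (star a * a) := by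
    rw [CStarMatrix.map_apply]
    congr 1
    rw [CStarMatrix.mul_apply, Fin.sum_univ_one]
    rfl
  have e2 : (star z * z) 0 0 = star (z 0 0) * z 0 0 := by
    rw [CStarMatrix.mul_apply, Fin.sum_univ_one]
    rfl
  rw [← e1, ← e2]
  exact h

theorem qd_approx {S : Type} [CStarAlgebra S] [Nontrivial S] (hS : QD S) (F : Finset S) {δ : ℝ}
    (hδ : 0 < δ) :
    ∃ f : S →ₗ[ℂ] ℂ, (∀ a, ‖f a‖ ≤ ‖a‖) ∧ (∀ a, 0 ≤ f (star a * a)) ∧ 1 / 2 ≤ (f 1).re ∧
      ∀ a ∈ F, ∀ b ∈ F, ‖f (a * b) - f (b * a)‖ ≤ δ := by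
  classical
  obtain ⟨M, hM1, hM⟩ : ∃ M : ℝ, 1 ≤ M ∧ ∀ a ∈ F, ‖a‖ ≤ M := by
    refine ⟨1 + ∑ a ∈ F, ‖a‖, ?_, fun a ha ↦ ?_⟩
    · have : 0 ≤ ∑ a ∈ F, ‖a‖ := Finset.sum_nonneg fun _ _ ↦ norm_nonneg _
      linarith
    · have := Finset.single_le_sum (f := fun a ↦ ‖a‖) (fun a _ ↦ norm_nonneg a) ha
      linarith
  set D : ℝ := 2 * (1 + 2 * M + 4 * M ^ 2) with hD
  have hDpos : 0 < D := by positivity
  set ε : ℝ := min (1 / 8) (δ / D) with hε
  have hε0 : 0 < ε := lt_min (by norm_num) (by positivity)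
  have hε8 : ε ≤ 1 / 8 := min_le_left _ _
  have hεD : ε * D ≤ δ := by
    have : ε ≤ δ / D := min_le_right _ _
    rwa [le_div_iff₀ hDpos] at this
  obtain ⟨k, φ, hφ1, hφcp, hφ⟩ := hS (insert 1 F) ε hε0
  have hcp := cp_one φ hφcp
  set h : Mk k := φ 1 with hh
  have hsa : IsSelfAdjoint h := by
    obtain ⟨z, hz⟩ := hcp 1
    rw [star_one, one_mul] at hz
    rw [hh, hz]
    exact IsSelfAdjoint.star_mul_self z
  have m1 : (1 : S) ∈ insert (1 : S) F := Finset.mem_insert_self _ _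
  have mF : ∀ a ∈ F, a ∈ insert (1 : S) F := fun a ha ↦ Finset.mem_insert_of_mem ha
  have h2 : ‖h * h - h‖ ≤ ε := by
    have := (hφ 1 m1 1 m1).1
    rw [mul_one] at this
    rw [norm_sub_rev]
    exact this.le
  obtain ⟨p, hp, hpp, hph⟩ := exists_proj h hsa hε8 h2
  have hhs : 0 < hs p := by
    refine lt_of_le_of_ne (hs_nonneg p) fun h0 ↦ ?_
    have hp0 := eq_zero_of_hs p h0.symm
    rw [hp0, sub_zero] at hph
    have := (hφ 1 m1 1 m1).2
    rw [CStarRing.norm_one] at this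
    have : 1 - ε < ‖h‖ := this
    linarith
  have htp : trM k p = (hs p : ℂ) := by
    rw [← trM_star_mul_self, hp, hpp]
  let f : S →ₗ[ℂ] ℂ := ((1 / hs p : ℝ) : ℂ) • ((trM k) ∘ₗ (LinearMap.mulRight ℂ p) ∘ₗ φ)
  have hf : ∀ a, f a = ((1 / hs p : ℝ) : ℂ) * trM k (φ a * p) := fun a ↦ rfl
  have hfb : ∀ z : Mk k, ‖((1 / hs p : ℝ) : ℂ) * trM k (z * p)‖ ≤ ‖z‖ := by
    intro z
    rw [norm_mul, Complex.norm_real, Real.norm_of_nonneg (by positivity)]
    calc 1 / hs p * ‖trM k (z * p)‖ ≤ 1 / hs p * (‖z‖ * hs p) :=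
          mul_le_mul_of_nonneg_left (norm_trM_le p z hp hpp) (by positivity)
      _ = ‖z‖ := by field_simp
  refine ⟨f, fun a ↦ ?_, fun a ↦ ?_, ?_, ?_⟩
  · rw [hf]
    exact (hfb _).trans (hφ1 a)
  · obtain ⟨z, hz⟩ := hcp a
    rw [hf, hz]
    have e : trM k (star z * z * p) = (hs (z * p) : ℂ) := by
      rw [← trM_star_mul_self, star_mul, hp]
      calc trM k (star z * z * p) = trM k (star z * z * (p * p)) := by rw [hpp]
        _ = trM k (star z * z * p * p) := by rw [mul_assoc (star z * z) p p]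
        _ = trM k (p * (star z * z * p)) := trM_mul_comm _ _
        _ = _ := by congr 1
    rw [e]
    have h3 := hs_nonneg (z * p)
    have : 0 ≤ (1 / hs p) * hs (z * p) := by positivity
    exact_mod_cast this
  · have h3 : ‖f 1 - 1‖ ≤ 1 / 2 := by
      have e : f 1 - 1 = ((1 / hs p : ℝ) : ℂ) * trM k ((h - p) * p) := by
        rw [hf, sub_mul, hpp, map_sub, htp, mul_sub, ← hh]
        congr 1
        push_cast
        have : (hs p : ℂ) ≠ 0 := by exact_mod_cast hhs.ne'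
        field_simp
      rw [e]
      exact (hfb _).trans (hph.trans (by linarith))
    have h4 := Complex.abs_re_le_norm (f 1 - 1)
    have h5 := neg_abs_le ((f 1 - 1).re)
    rw [Complex.sub_re, Complex.one_re] at h4 h5
    linarith
  · intro a ha b hb
    have key : ∀ a ∈ F, ∀ b ∈ F, ‖f (a * b) - ((1 / hs p : ℝ) : ℂ) * trM k (φ a * p * φ b * p)‖ ≤
        ε * (1 + 2 * M + 4 * M ^ 2) := by
      intro a ha b hb
      have hna : ‖φ a‖ ≤ M := (hφ1 a).trans (hM a ha)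
      have hnb : ‖φ b‖ ≤ M := (hφ1 b).trans (hM b hb)
      have k1 : ‖φ (a * b) - φ a * φ b‖ ≤ ε := (hφ a (mF a ha) b (mF b hb)).1.le
      have k2 : ‖φ b - φ b * h‖ ≤ ε := by
        have := (hφ b (mF b hb) 1 m1).1.le
        rwa [mul_one] at this
      have k3 : ‖φ b - h * φ b‖ ≤ ε := by
        have := (hφ 1 m1 b (mF b hb)).1.le
        rwa [one_mul] at this
      have k4 : ‖φ b * p - p * φ b‖ ≤ 2 * ε + 4 * M * ε := by
        have e : φ b * p - p * φ b = (φ b - h * φ b) - (φ b - φ b * h) - φ b * (h - p) +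
            (h - p) * φ b := by simp only [mul_sub, sub_mul]; abel
        rw [e]
        have k5 : ‖φ b * (h - p)‖ ≤ M * (2 * ε) :=
          (norm_mul_le _ _).trans (mul_le_mul hnb hph (norm_nonneg _) (by linarith))
        have k6 : ‖(h - p) * φ b‖ ≤ (2 * ε) * M :=
          (norm_mul_le _ _).trans (mul_le_mul hph hnb (norm_nonneg _) (by linarith))
        calc _ ≤ ‖(φ b - h * φ b) - (φ b - φ b * h) - φ b * (h - p)‖ + ‖(h - p) * φ b‖ :=
              norm_add_le _ _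
          _ ≤ (‖(φ b - h * φ b) - (φ b - φ b * h)‖ + ‖φ b * (h - p)‖) + ‖(h - p) * φ b‖ := by
              gcongr; exact norm_sub_le _ _
          _ ≤ ((‖φ b - h * φ b‖ + ‖φ b - φ b * h‖) + ‖φ b * (h - p)‖) + ‖(h - p) * φ b‖ := by
              gcongr; exact norm_sub_le _ _
          _ ≤ ((ε + ε) + M * (2 * ε)) + (2 * ε) * M := by gcongr
          _ = 2 * ε + 4 * M * ε := by ring
      have e : f (a * b) - ((1 / hs p : ℝ) : ℂ) * trM k (φ a * p * φ b * p) =
          ((1 / hs p : ℝ) : ℂ) *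
            trM k (((φ (a * b) - φ a * φ b) + φ a * (φ b * p - p * φ b)) * p) := by
        rw [hf, ← mul_sub, ← map_sub]
        congr 2
        have : (φ a * (φ b * p - p * φ b)) * p = φ a * φ b * p - φ a * p * φ b * p := by
          rw [mul_sub, sub_mul]
          congr 1
          rw [mul_assoc, mul_assoc (φ b), hpp, mul_assoc]
        rw [add_mul, this, sub_mul]
        abel
      rw [e]
      refine (hfb _).trans ?_
      calc ‖(φ (a * b) - φ a * φ b) + φ a * (φ b * p - p * φ b)‖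
          ≤ ‖φ (a * b) - φ a * φ b‖ + ‖φ a * (φ b * p - p * φ b)‖ := norm_add_le _ _
        _ ≤ ε + M * (2 * ε + 4 * M * ε) := by
            refine add_le_add k1 ((norm_mul_le _ _).trans ?_)
            exact mul_le_mul hna k4 (norm_nonneg _) (by linarith)
        _ = ε * (1 + 2 * M + 4 * M ^ 2) := by ring
    have e : trM k (φ a * p * φ b * p) = trM k (φ b * p * φ a * p) := by
      rw [show φ a * p * φ b * p = (φ a * p) * (φ b * p) by noncomm_ring, trM_mul_comm]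
      congr 1
    have h1 := key a ha b hb
    have h2' := key b hb a ha
    rw [← e] at h2'
    calc ‖f (a * b) - f (b * a)‖ = ‖(f (a * b) - ((1 / hs p : ℝ) : ℂ) *
            trM k (φ a * p * φ b * p)) - (f (b * a) - ((1 / hs p : ℝ) : ℂ) *
            trM k (φ a * p * φ b * p))‖ := by congr 1; ring
      _ ≤ _ := norm_sub_le _ _
      _ ≤ ε * (1 + 2 * M + 4 * M ^ 2) + ε * (1 + 2 * M + 4 * M ^ 2) := add_le_add h1 h2'
      _ = ε * D := by rw [hD]; ring
      _ ≤ δ := hεD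

/-- A unital quasidiagonal C*-algebra has a tracial functional which is not zero. -/
theorem exists_trace_of_qd {S : Type} [CStarAlgebra S] [Nontrivial S] (hS : QD S) :
    ∃ τ : S →ₗ[ℂ] ℂ, IsTr τ ∧ τ 1 ≠ 0 := by
  set K : Set (S → ℂ) := {f | (∀ a b, f (a + b) = f a + f b) ∧ (∀ (c : ℂ) a, f (c • a) = c * f a) ∧
    (∀ a, ‖f a‖ ≤ ‖a‖) ∧ (∀ a, 0 ≤ f (star a * a)) ∧ 1 / 2 ≤ (f 1).re} with hK
  have hKc : IsCompact K := by
    have h1 : IsCompact (Set.univ.pi fun a : S ↦ Metric.closedBall (0 : ℂ) ‖a‖) :=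
      isCompact_univ_pi fun a ↦ isCompact_closedBall _ _
    refine h1.of_isClosed_subset ?_ ?_
    · have e : K = (⋂ (a : S) (b : S), {f : S → ℂ | f (a + b) = f a + f b}) ∩
          ((⋂ (c : ℂ) (a : S), {f : S → ℂ | f (c • a) = c * f a}) ∩
          ((⋂ a : S, {f : S → ℂ | ‖f a‖ ≤ ‖a‖}) ∩ ((⋂ a : S, {f : S → ℂ | 0 ≤ f (star a * a)}) ∩
          {f : S → ℂ | 1 / 2 ≤ (f 1).re}))) := by
        ext f
        simp [hK]
      rw [e]
      refine IsClosed.inter ?_ (IsClosed.inter ?_ (IsClosed.inter ?_ (IsClosed.inter ?_ ?_)))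
      · exact isClosed_iInter fun a ↦ isClosed_iInter fun b ↦
          isClosed_eq (continuous_apply (a + b)) (by fun_prop)
      · exact isClosed_iInter fun a ↦ isClosed_iInter fun b ↦
          isClosed_eq (continuous_apply _) (continuous_const.mul (continuous_apply _))
      · exact isClosed_iInter fun a ↦ isClosed_le (continuous_norm.comp (continuous_apply _))
          continuous_const
      · exact isClosed_iInter fun a ↦ isClosed_le continuous_const (continuous_apply _)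
      · exact isClosed_le continuous_const (Complex.continuous_re.comp (continuous_apply _))
    · intro f hf a _
      rw [mem_closedBall_zero_iff]
      exact hf.2.2.1 a
  obtain ⟨f, hfK, hf⟩ := hKc.inter_iInter_nonempty
    (fun i : (S × S) × ℕ ↦ {f : S → ℂ | ‖f (i.1.1 * i.1.2) - f (i.1.2 * i.1.1)‖ ≤ 1 / (i.2 + 1)})
    (fun i ↦ isClosed_le (continuous_norm.comp
      ((continuous_apply _).sub (continuous_apply _))) continuous_const) (by
      classical
      intro u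
      set F : Finset S := u.image (fun i ↦ i.1.1) ∪ u.image (fun i ↦ i.1.2) with hF
      obtain ⟨N, hN⟩ : ∃ N : ℕ, ∀ i ∈ u, i.2 ≤ N := ⟨u.sup fun i ↦ i.2, fun i hi ↦
        Finset.le_sup (f := fun i : (S × S) × ℕ ↦ i.2) hi⟩
      obtain ⟨f, h1, h2, h3, h4⟩ := qd_approx hS F (δ := 1 / ((N : ℝ) + 1)) (by positivity)
      refine ⟨fun a ↦ f a, ⟨fun a b ↦ map_add f a b, fun c a ↦ map_smul f c a, h1, h2, h3⟩, ?_⟩
      refine Set.mem_iInter₂.2 fun i hi ↦ ?_
      have ha : i.1.1 ∈ F := Finset.mem_union_left _ (Finset.mem_image_of_mem _ hi)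
      have hb : i.1.2 ∈ F := Finset.mem_union_right _ (Finset.mem_image_of_mem _ hi)
      refine (h4 _ ha _ hb).trans ?_
      have : (i.2 : ℝ) ≤ N := by exact_mod_cast hN i hi
      exact one_div_le_one_div_of_le (by positivity) (by linarith))
  obtain ⟨f1, f2, f3, f4, f5⟩ := hfK
  let τ : S →ₗ[ℂ] ℂ :=
    { toFun := f
      map_add' := f1
      map_smul' := fun c a ↦ by rw [f2, RingHom.id_apply, smul_eq_mul] }
  refine ⟨τ, ⟨?_, f4, fun a b ↦ ?_⟩, fun h0 ↦ ?_⟩
  · have : ∀ a, ‖τ a‖ ≤ 1 * ‖a‖ := fun a ↦ by rw [one_mul]; exact f3 a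
    exact (LinearMap.mkContinuous τ 1 this).continuous
  · have h1 : ∀ n : ℕ, ‖f (a * b) - f (b * a)‖ ≤ 1 / ((n : ℝ) + 1) := fun n ↦ by
      have := Set.mem_iInter.1 hf ((a, b), n)
      exact this
    have h2 : ‖f (a * b) - f (b * a)‖ ≤ 0 :=
      ge_of_tendsto' tendsto_one_div_add_atTop_nhds_zero_nat h1
    exact sub_eq_zero.1 (norm_le_zero_iff.1 h2)
  · have h1 : f 1 = 0 := h0
    rw [h1, Complex.zero_re] at f5
    norm_num at f5

end matrices

end Pool.Agent.Helper34.AFE
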