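import Pool.Agent.Helper39.Uct.Final

/-!
# Tracial functionals
-/

set_option autoImplicit false

open scoped ComplexOrder
open Filter Topology

namespace Pool.Agent.Helper34.AFE

/-- A tracial functional: linear, continuous, positive, `τ (a b) = τ (b a)`. -/
structure IsTr {A : Type} [NonUnitalCStarAlgebra A] (τ : A →ₗ[ℂ] ℂ) : Prop where
  cont : Continuous τ
  pos : ∀ a, 0 ≤ τ (star a * a)
  tr : ∀ a b, τ (a * b) = τ (b * a)

variable {A : Type} [NonUnitalCStarAlgebra A]

theorem pos_null {τ : A →ₗ[ℂ] ℂ} (pos : ∀ a, 0 ≤ τ (star a * a)) {a : A}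
    (ha : τ (star a * a) = 0) (b : A) : τ (star b * a) = 0 := by
  set x := τ (star a * b) with hx
  set y := τ (star b * a) with hy
  set D := τ (star b * b) with hD
  have key : ∀ z : ℂ, 0 ≤ z * x + star z * y + star z * z * D := by
    intro z
    have h := pos (a + z • b)
    have e : star (a + z • b) * (a + z • b) = star a * a + z • (star a * b) +
        star z • (star b * a) + (star z * z) • (star b * b) := by
      rw [star_add, star_smul, add_mul, mul_add, mul_add, smul_mul_assoc, mul_smul_comm,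
        smul_mul_assoc, mul_smul_comm, smul_smul]
      abel
    rw [e, map_add, map_add, map_add, map_smul, map_smul, map_smul, ha] at h
    simp only [smul_eq_mul, zero_add] at h
    exact h
  have hD0 : 0 ≤ D := pos b
  obtain ⟨hDr, hDi⟩ := Complex.le_def.1 hD0
  simp only [Complex.zero_re, Complex.zero_im] at hDr hDi
  have k1 := (Complex.le_def.1 (key 1)).2
  have k2 := (Complex.le_def.1 (key Complex.I)).2
  simp at k1 k2
  have hyx1 : y.im = -x.im := by linarith
  have hyx2 : y.re = x.re := by linarith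
  have hxy : y = star x := by
    apply Complex.ext
    · simpa using hyx2
    · simpa using hyx1
  have k3 : ∀ t : ℝ, 0 < t → 0 ≤ t * (Complex.normSq x * (t * D.re - 2)) := by
    intro t _
    have := (Complex.le_def.1 (key (-(t : ℂ) * star x))).1
    rw [hxy] at this
    have e : (-(t : ℂ) * star x) * x + star (-(t : ℂ) * star x) * star x +
        star (-(t : ℂ) * star x) * (-(t : ℂ) * star x) * D =
        ((t * (Complex.normSq x * (t * D.re - 2)) : ℝ) : ℂ) := by
      have hD' : D = (D.re : ℂ) := by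
        apply Complex.ext <;> simp [← hDi]
      have hn : star x * x = (Complex.normSq x : ℂ) := by
        rw [mul_comm]; exact Complex.mul_conj x
      rw [hD']
      simp only [star_mul, star_neg, Complex.star_def, Complex.conj_ofReal, Complex.conj_conj] at hn ⊢
      push_cast
      simp only [Complex.ofReal_re]
      linear_combination (-(2 : ℂ) * t + t * t * D.re) * hn
    rw [e] at this
    simpa using this
  have hx0 : Complex.normSq x = 0 := by
    by_contra hne
    have hpos : 0 < Complex.normSq x := lt_of_le_of_ne (Complex.normSq_nonneg x) (Ne.symm hne)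
    have h4 := k3 (1 / (D.re + 1)) (by positivity)
    have h5 : 1 / (D.re + 1) * D.re < 1 := by
      rw [one_div, inv_mul_lt_iff₀ (by positivity)]; linarith
    have h6 : 0 < 1 / (D.re + 1) := by positivity
    have h7 : Complex.normSq x * (1 / (D.re + 1) * D.re - 2) < 0 :=
      mul_neg_of_pos_of_neg hpos (by linarith)
    have h8 := mul_neg_of_pos_of_neg h6 h7
    linarith
  rw [hxy, Complex.normSq_eq_zero.1 hx0, star_zero]

/-- The null ideal of a trace. -/
def nullIdeal (τ : A →ₗ[ℂ] ℂ) : Submodule ℂ A where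
  carrier := {a | ∀ b, τ (b * a) = 0}
  add_mem' := by
    intro x y hx hy b
    rw [mul_add, map_add, hx b, hy b, add_zero]
  zero_mem' := by intro b; simp
  smul_mem' := by
    intro c x hx b
    rw [mul_smul_comm, map_smul, hx b, smul_zero]

theorem mem_nullIdeal {τ : A →ₗ[ℂ] ℂ} {a : A} : a ∈ nullIdeal τ ↔ ∀ b, τ (b * a) = 0 := Iff.rfl

theorem mem_nullIdeal_iff {τ : A →ₗ[ℂ] ℂ} (pos : ∀ a, 0 ≤ τ (star a * a)) {a : A} :
    a ∈ nullIdeal τ ↔ τ (star a * a) = 0 := by
  constructor
  · intro h; exact h _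
  · intro h b
    have := pos_null pos h (star b)
    rwa [star_star] at this

theorem nullIdeal_closed {τ : A →ₗ[ℂ] ℂ} (h : Continuous τ) : IsClosed (nullIdeal τ : Set A) := by
  have : (nullIdeal τ : Set A) = ⋂ b : A, {a | τ (b * a) = 0} := by
    ext a; simp [mem_nullIdeal]
  rw [this]
  exact isClosed_iInter fun b ↦ isClosed_eq (h.comp (continuous_const.mul continuous_id))
    continuous_const

theorem nullIdeal_ideal {τ : A →ₗ[ℂ] ℂ} (h : ∀ a b, τ (a * b) = τ (b * a)) (c x : A)
    (hx : x ∈ nullIdeal τ) : c * x ∈ nullIdeal τ ∧ x * c ∈ nullIdeal τ := by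
  refine ⟨fun b ↦ ?_, fun b ↦ ?_⟩
  · rw [← mul_assoc]; exact hx _
  · rw [← mul_assoc, h, ← mul_assoc]; exact hx _

/-- Every closed two-sided ideal is trivial. -/
def Simp (S : Type) [NonUnitalCStarAlgebra S] : Prop :=
  ∀ J : Submodule ℂ S, IsClosed (J : Set S) → (∀ a, ∀ x ∈ J, a * x ∈ J ∧ x * a ∈ J) →
    J = ⊥ ∨ J = ⊤

/-- A nonzero tracial functional on a simple C*-algebra is faithful. -/
theorem faithful_of_simp (hS : Simp A) {τ : A →ₗ[ℂ] ℂ} (h : IsTr τ) {a₀ : A}
    (h0 : τ (star a₀ * a₀) ≠ 0) {a : A} (ha : a ≠ 0) : τ (star a * a) ≠ 0 := by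
  intro hz
  rcases hS (nullIdeal τ) (nullIdeal_closed h.cont)
    (fun c x hx ↦ nullIdeal_ideal h.tr c x hx) with h1 | h1
  · have : a ∈ nullIdeal τ := (mem_nullIdeal_iff h.pos).2 hz
    rw [h1, Submodule.mem_bot] at this
    exact ha this
  · have : a₀ ∈ nullIdeal τ := by rw [h1]; trivial
    exact h0 ((mem_nullIdeal_iff h.pos).1 this)

theorem IsTr.comp {B : Type} [NonUnitalCStarAlgebra B] {τ : B →ₗ[ℂ] ℂ} (h : IsTr τ)
    (π : A →⋆ₙₐ[ℂ] B) : IsTr (τ ∘ₗ (π : A →ₗ[ℂ] B)) where
  cont := h.cont.comp (by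
    have : Continuous π := AddMonoidHomClass.continuous_of_bound π 1 fun a ↦ by
      rw [one_mul]; exact NonUnitalStarAlgHom.norm_apply_le π a
    exact this)
  pos a := by
    have := h.pos (π a)
    rw [← map_star, ← map_mul] at this
    exact this
  tr a b := by
    have := h.tr (π a) (π b)
    simpa using this

theorem IsTr.smul {τ : A →ₗ[ℂ] ℂ} (h : IsTr τ) {c : ℝ} (hc : 0 ≤ c) : IsTr ((c : ℂ) • τ) where
  cont := by
    have := h.cont.const_smul (c : ℂ)
    exact this
  pos a := by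
    have h1 := h.pos a
    simp only [LinearMap.smul_apply, smul_eq_mul]
    exact mul_nonneg (by exact_mod_cast hc) h1
  tr a b := by simp only [LinearMap.smul_apply, h.tr a b]

theorem IsTr.bound {τ : A →ₗ[ℂ] ℂ} (h : IsTr τ) : ∃ C : ℝ, 0 ≤ C ∧ ∀ a, ‖τ a‖ ≤ C * ‖a‖ := by
  set f : A →L[ℂ] ℂ := ⟨τ, h.cont⟩ with hf
  exact ⟨‖f‖, norm_nonneg _, fun a ↦ f.le_opNorm a⟩

/-- A tracial functional which is faithful. -/
def FaithfulTr (A : Type) [NonUnitalCStarAlgebra A] : Prop :=
  ∃ τ : A →ₗ[ℂ] ℂ, IsTr τ ∧ ∀ a, τ (star a * a) = 0 → a = 0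

/-- A separable C*-algebra with a separating family of traces has a faithful one. -/
theorem faithful_of_separating [TopologicalSpace.SeparableSpace A]
    (h : ∀ a : A, a ≠ 0 → ∃ τ : A →ₗ[ℂ] ℂ, IsTr τ ∧ τ (star a * a) ≠ 0) : FaithfulTr A := by
  classical
  haveI : SecondCountableTopology A := UniformSpace.secondCountable_of_separable A
  choose! τ hτ hτ0 using h
  set U : {a : A // a ≠ 0} → Set A := fun a ↦ {b | τ a (star b * b) ≠ 0} with hU
  have hUo : ∀ a, IsOpen (U a) := fun a ↦ by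
    have : Continuous fun b : A ↦ τ a (star b * b) :=
      (hτ a a.2).cont.comp (continuous_star.mul continuous_id)
    exact isOpen_ne_fun this continuous_const
  obtain ⟨T, hTc, hT⟩ := TopologicalSpace.isOpen_iUnion_countable U hUo
  have hcov : ∀ b : A, b ≠ 0 → ∃ a ∈ T, τ a.1 (star b * b) ≠ 0 := by
    intro b hb
    have : b ∈ ⋃ i, U i := Set.mem_iUnion.2 ⟨⟨b, hb⟩, hτ0 b hb⟩
    rw [← hT] at this
    obtain ⟨a, ha, ha'⟩ := Set.mem_iUnion₂.1 this
    exact ⟨a, ha, ha'⟩
  haveI : Countable T := hTc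
  haveI : Encodable T := Encodable.ofCountable T
  choose! C hC0 hC using fun a : T ↦ (hτ a.1.1 a.1.2).bound
  -- weights
  set w : T → ℝ := fun a ↦ (1 / 2) ^ (Encodable.encode a) / (1 + C a) with hw
  have hw0 : ∀ a, 0 < w a := fun a ↦ by
    have := hC0 a
    positivity
  have hsum : Summable fun a : T ↦ ((1 : ℝ) / 2) ^ (Encodable.encode a) :=
    (summable_geometric_of_lt_one (by norm_num) (by norm_num)).comp_injective
      Encodable.encode_injective
  have hbd : ∀ (a : T) (b : A), ‖((w a : ℂ) • τ a.1.1) b‖ ≤ (1 / 2) ^ (Encodable.encode a) * ‖b‖ := by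
    intro a b
    simp only [LinearMap.smul_apply, smul_eq_mul, norm_mul, Complex.norm_real]
    rw [Real.norm_of_nonneg (hw0 a).le]
    have h1 := hC a b
    have h2 := hC0 a
    calc w a * ‖τ a.1.1 b‖ ≤ w a * (C a * ‖b‖) := mul_le_mul_of_nonneg_left h1 (hw0 a).le
      _ = (1 / 2) ^ (Encodable.encode a) * (C a / (1 + C a)) * ‖b‖ := by
          simp only [hw]; ring
      _ ≤ (1 / 2) ^ (Encodable.encode a) * 1 * ‖b‖ := by
          have : C a / (1 + C a) ≤ 1 := by rw [div_le_one (by linarith)]; linarith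
          gcongr
      _ = _ := by rw [mul_one]
  have hsm : ∀ b : A, Summable fun a : T ↦ ((w a : ℂ) • τ a.1.1) b := fun b ↦
    Summable.of_norm_bounded (hsum.mul_right ‖b‖) (fun a ↦ hbd a b)
  have hsmn : ∀ b : A, Summable fun a : T ↦ ‖((w a : ℂ) • τ a.1.1) b‖ := fun b ↦
    Summable.of_nonneg_of_le (fun _ ↦ norm_nonneg _) (fun a ↦ hbd a b) (hsum.mul_right ‖b‖)
  let σ : A →ₗ[ℂ] ℂ :=
    { toFun := fun b ↦ ∑' a : T, ((w a : ℂ) • τ a.1.1) b
      map_add' := fun x y ↦ by
        simp only [map_add]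
        exact (hsm x).tsum_add (hsm y)
      map_smul' := fun c x ↦ by
        simp only [map_smul, RingHom.id_apply, smul_eq_mul]
        exact (hsm x).tsum_mul_left c }
  have hσ : ∀ b, σ b = ∑' a : T, ((w a : ℂ) • τ a.1.1) b := fun _ ↦ rfl
  have hpos : ∀ a : T, ∀ b : A, 0 ≤ ((w a : ℂ) • τ a.1.1) (star b * b) := fun a b ↦
    ((hτ a.1.1 a.1.2).smul (hw0 a).le).pos b
  refine ⟨σ, ⟨?_, ?_, ?_⟩, ?_⟩
  · have hb : ∀ b, ‖σ b‖ ≤ (∑' a : T, ((1 : ℝ) / 2) ^ (Encodable.encode a)) * ‖b‖ := fun b ↦ by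
      rw [hσ, ← tsum_mul_right]
      exact (norm_tsum_le_tsum_norm (hsmn b)).trans
        ((hsmn b).tsum_le_tsum (fun a ↦ hbd a b) (hsum.mul_right ‖b‖))
    exact (LinearMap.mkContinuous σ _ hb).continuous
  · intro b
    rw [hσ]
    exact tsum_nonneg fun a ↦ hpos a b
  · intro x y
    rw [hσ, hσ]
    refine tsum_congr fun a ↦ ?_
    exact ((hτ a.1.1 a.1.2).smul (hw0 a).le).tr x y
  · intro b hb
    by_contra hne
    obtain ⟨a, haT, ha⟩ := hcov b hne
    have hre : ∀ a : T, 0 ≤ (((w a : ℂ) • τ a.1.1) (star b * b)).re := fun a ↦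
      (Complex.le_def.1 (hpos a b)).1
    have hsr : Summable fun a : T ↦ (((w a : ℂ) • τ a.1.1) (star b * b)).re :=
      (Complex.hasSum_re (hsm (star b * b)).hasSum).summable
    have h1 : (σ (star b * b)).re = ∑' a : T, (((w a : ℂ) • τ a.1.1) (star b * b)).re := by
      rw [hσ]
      exact (Complex.hasSum_re (hsm (star b * b)).hasSum).tsum_eq.symm
    rw [hb, Complex.zero_re] at h1
    have h2 : (((w ⟨a, haT⟩ : ℂ) • τ a.1) (star b * b)).re ≤ 0 := by
      rw [h1]
      exact hsr.le_tsum ⟨a, haT⟩ (fun j _ ↦ hre j)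
    have h3 := hre ⟨a, haT⟩
    have h4 : (((w ⟨a, haT⟩ : ℂ) • τ a.1) (star b * b)) = 0 := by
      have him := (Complex.le_def.1 (hpos ⟨a, haT⟩ b)).2
      apply Complex.ext
      · simp only [Complex.zero_re]
        exact le_antisymm h2 h3
      · simpa using him.symm
    rw [LinearMap.smul_apply, smul_eq_mul, mul_eq_zero] at h4
    rcases h4 with h4 | h4
    · have := hw0 ⟨a, haT⟩
      rw [Complex.ofReal_eq_zero] at h4
      exact absurd h4 this.ne'
    · exact ha h4

end Pool.Agent.Helper34.AFE
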